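import Pool.Agent.helper88.RL.SpecW
import Pool.Agent.helper88.RL.Cop

set_option autoImplicit false

namespace Pool.Agent.RL

open Finset Pool.Agent.helper3.FT Pool.Agent.T6 Pool.Agent.RF

/-- coordinates -/
def VNR_crd (x z : OO) : V4 := (x.re, x.im, z.re, z.im)

theorem VNR_crd_add (x z x' z' : OO) :
    VNR_crd x z + VNR_crd x' z' = VNR_crd (x + x') (z + z') := by
  simp [VNR_crd]

theorem VNR_crd_smul (n : ℤ) (x z : OO) :
    n • VNR_crd x z = VNR_crd ((n : OO) * x) ((n : OO) * z) := by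
  simp [VNR_crd]

theorem VNR_crd_zero (x z : OO) : VNR_crd x z = 0 ↔ x = 0 ∧ z = 0 := by
  constructor
  · intro h
    have h1 : x.re = 0 := congrArg (fun v : V4 => v.1) h
    have h2 : x.im = 0 := congrArg (fun v : V4 => v.2.1) h
    have h3 : z.re = 0 := congrArg (fun v : V4 => v.2.2.1) h
    have h4 : z.im = 0 := congrArg (fun v : V4 => v.2.2.2) h
    constructor
    · ext
      · simpa using h1
      · simpa using h2
    · ext
      · simpa using h3
      · simpa using h4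
  · rintro ⟨rfl, rfl⟩
    rfl

/-- the three relations of a near point -/
structure VNR_Rel (k g : OO) (H : ℕ) (p : ℤ × ℤ × ℤ × ℤ) (e w z : OO) : Prop where
  r1 : (H : OO) * (⟨p.1, p.2.1⟩ : OO) - (ph * (p.2.2.1 : OO) - (p.2.2.2 : OO)) = k ^ 3 * e
  r2 : star k ^ 3 * star e - 2 * (H : OO) * star (⟨p.1, p.2.1⟩ : OO) = k ^ 2 * w
  r3 : star g * w + 2 * ph * g * star w = k * z
  r4 : 10 * (H : OO) * g * (⟨p.1, p.2.1⟩ : OO) = FF k (g * e) z

theorem VNR_mk_add (u v u' v' : ℤ) : (⟨u + u', v + v'⟩ : OO) = ⟨u, v⟩ + ⟨u', v'⟩ := rfl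

theorem VNR_mk_smul (n u v : ℤ) : (⟨n * u, n * v⟩ : OO) = (n : OO) * ⟨u, v⟩ := by
  ext <;> simp

theorem VNR_add {k g : OO} {H : ℕ} {p p' : ℤ × ℤ × ℤ × ℤ} {e w z e' w' z' : OO}
    (h : VNR_Rel k g H p e w z) (h' : VNR_Rel k g H p' e' w' z') :
    VNR_Rel k g H (p + p') (e + e') (w + w') (z + z') := by
  obtain ⟨u, v, P, R⟩ := p
  obtain ⟨u', v', P', R'⟩ := p'
  have a1 := h.r1
  have a2 := h.r2
  have a3 := h.r3
  have a4 := h.r4
  have b1 := h'.r1
  have b2 := h'.r2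
  have b3 := h'.r3
  have b4 := h'.r4
  simp only at a1 a2 a4 b1 b2 b4
  refine ⟨?_, ?_, ?_, ?_⟩
  · simp only [Prod.mk_add_mk]
    rw [VNR_mk_add]
    push_cast
    linear_combination a1 + b1
  · simp only [Prod.mk_add_mk]
    rw [VNR_mk_add, star_add, star_add]
    linear_combination a2 + b2
  · rw [star_add]
    linear_combination a3 + b3
  · simp only [Prod.mk_add_mk]
    rw [VNR_mk_add]
    unfold FF at *
    rw [star_add]
    linear_combination a4 + b4

theorem VNR_smul {k g : OO} {H : ℕ} {p : ℤ × ℤ × ℤ × ℤ} {e w z : OO} (n : ℤ)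
    (h : VNR_Rel k g H p e w z) :
    VNR_Rel k g H (n • p) ((n : OO) * e) ((n : OO) * w) ((n : OO) * z) := by
  obtain ⟨u, v, P, R⟩ := p
  have a1 := h.r1
  have a2 := h.r2
  have a3 := h.r3
  have a4 := h.r4
  simp only at a1 a2 a4
  have hs : ∀ x : OO, star ((n : OO) * x) = (n : OO) * star x := fun x => by
    rw [star_mul, star_intCast, mul_comm]
  refine ⟨?_, ?_, ?_, ?_⟩
  · simp only [Prod.smul_mk, smul_eq_mul]
    rw [VNR_mk_smul]
    push_cast
    linear_combination (n : OO) * a1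
  · simp only [Prod.smul_mk, smul_eq_mul]
    rw [VNR_mk_smul, hs, hs]
    linear_combination (n : OO) * a2
  · rw [hs]
    linear_combination (n : OO) * a3
  · simp only [Prod.smul_mk, smul_eq_mul]
    rw [VNR_mk_smul]
    unfold FF at *
    rw [hs]
    linear_combination (n : OO) * a4

theorem VNR_zero_iff (hW : WEU_stmt) {k g : OO} {H : ℕ} {p : ℤ × ℤ × ℤ × ℤ} {e w z : OO}
    (h : VNR_Rel k g H p e w z) (hk : k ≠ 0) (hg : g ≠ 0) (hH : H ≠ 0) :
    (g * e = 0 ∧ z = 0) ↔ p = 0 := by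
  have : IsDomain OO := hW.1
  have hcast : ∀ n : ℕ, n ≠ 0 → ((n : ℕ) : OO) ≠ 0 := by
    intro n hn h0
    have h1 := congrArg QuadraticAlgebra.re h0
    simp at h1
    exact hn h1
  obtain ⟨u, v, P, R⟩ := p
  have a1 := h.r1
  have a2 := h.r2
  have a3 := h.r3
  have a4 := h.r4
  simp only at a1 a2 a4
  constructor
  · rintro ⟨h1, h2⟩
    have he : e = 0 := (mul_eq_zero.1 h1).resolve_left hg
    rw [h1, h2] at a4
    have h3 : FF k 0 0 = 0 := by
      unfold FF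
      simp
    rw [h3] at a4
    have h10 : (10 : OO) * (H : OO) * g ≠ 0 := by
      refine mul_ne_zero (mul_ne_zero ?_ (hcast H hH)) hg
      exact_mod_cast hcast 10 (by norm_num)
    have hU : (⟨u, v⟩ : OO) = 0 := (mul_eq_zero.1 a4).resolve_left h10
    have hu : u = 0 := congrArg QuadraticAlgebra.re hU
    have hv : v = 0 := congrArg QuadraticAlgebra.im hU
    rw [hU, he, mul_zero, mul_zero, zero_sub, neg_eq_zero] at a1
    have c1 := congrArg QuadraticAlgebra.re a1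
    have c2 := congrArg QuadraticAlgebra.im a1
    simp [ph] at c1 c2
    rw [hu, hv, c1, c2]
    rfl
  · intro hp
    have hu : u = 0 := congrArg (fun q : ℤ × ℤ × ℤ × ℤ => q.1) hp
    have hv : v = 0 := congrArg (fun q : ℤ × ℤ × ℤ × ℤ => q.2.1) hp
    have hP : P = 0 := congrArg (fun q : ℤ × ℤ × ℤ × ℤ => q.2.2.1) hp
    have hR : R = 0 := congrArg (fun q : ℤ × ℤ × ℤ × ℤ => q.2.2.2) hp
    subst hu hv hP hR
    have h0 : (⟨0, 0⟩ : OO) = 0 := rfl
    rw [h0] at a1 a2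
    simp only [Int.cast_zero, mul_zero, sub_zero, star_zero] at a1 a2
    have he : e = 0 := (mul_eq_zero.1 a1.symm).resolve_left (pow_ne_zero 3 hk)
    rw [he, star_zero, mul_zero] at a2
    have hw : w = 0 := (mul_eq_zero.1 a2.symm).resolve_left (pow_ne_zero 2 hk)
    rw [hw, star_zero, mul_zero, mul_zero, add_zero] at a3
    have hz : z = 0 := (mul_eq_zero.1 a3.symm).resolve_left hk
    rw [he, mul_zero]
    exact ⟨rfl, hz⟩

theorem VNR_FF {δ r : ℕ} {k a z : OO} (hr : (δ : ℤ) ∣ k.im * r - k.re)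
    (hc : IsCoprime (δ : OO) (k.im : OO)) (h : (δ : OO) ∣ FF k a z) :
    (δ : OO) ∣ FF ⟨(r : ℤ), 1⟩ a z := by
  obtain ⟨c, hc1⟩ := hr
  have e1 : k = (k.im : OO) * ⟨(r : ℤ), 1⟩ - (δ : OO) * (c : OO) := by
    ext
    · simp
      linarith
    · simp
  have e2 : star k = (k.im : OO) * star (⟨(r : ℤ), 1⟩ : OO) - (δ : OO) * (c : OO) := by
    have h3 := congrArg star e1
    rw [star_sub, star_mul, star_mul, star_intCast, star_natCast, star_intCast] at h3
    rw [h3]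
    ring
  have h4 : (δ : OO) ∣ (k.im : OO) ^ 3 * FF ⟨(r : ℤ), 1⟩ a z := by
    have h5 : (k.im : OO) ^ 3 * FF ⟨(r : ℤ), 1⟩ a z - FF k a z = (δ : OO) * (c *
        (5 * a * (3 * k ^ 2 + 3 * k * (δ * c) + (δ * c) ^ 2) +
        2 * star ph * z * (2 * k * star k + k * (δ * c) + star k ^ 2 + 2 * star k * (δ * c) + (δ * c) ^ 2) -
        star z * (3 * star k ^ 2 + 3 * star k * (δ * c) + (δ * c) ^ 2))) := by
      have f1 : (k.im : OO) * ⟨(r : ℤ), 1⟩ = k + (δ : OO) * (c : OO) :=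
        eq_add_of_sub_eq e1.symm
      have f2 : (k.im : OO) * star (⟨(r : ℤ), 1⟩ : OO) = star k + (δ : OO) * (c : OO) := by
        rw [e2]; ring
      have f3 : (k.im : OO) ^ 3 * FF ⟨(r : ℤ), 1⟩ a z =
          5 * a * ((k.im : OO) * ⟨(r : ℤ), 1⟩) ^ 3 +
          2 * star ph * z * ((k.im : OO) * ⟨(r : ℤ), 1⟩) * ((k.im : OO) * star (⟨(r : ℤ), 1⟩ : OO)) ^ 2 -
          star z * ((k.im : OO) * star (⟨(r : ℤ), 1⟩ : OO)) ^ 3 := by
        unfold FF
        ring
      rw [f3, f1, f2]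
      unfold FF
      ring
    obtain ⟨x, hx⟩ := h
    obtain ⟨y, hy⟩ : (δ : OO) ∣ (k.im : OO) ^ 3 * FF ⟨(r : ℤ), 1⟩ a z - FF k a z := ⟨_, h5⟩
    exact ⟨x + y, by linear_combination hy + hx⟩
  exact (hc.pow_right (n := 3)).dvd_of_dvd_mul_left h4

theorem VNR_coord (x : OO) (M : ℝ) (h1 : |va x| ≤ M) (h2 : |vb x| ≤ M) :
    |(x.re : ℝ)| ≤ M ∧ |(x.im : ℝ)| ≤ M := by
  have hM : 0 ≤ M := (abs_nonneg _).trans h1
  have s2 : (2 : ℝ) ≤ √5 := Real.le_sqrt_of_sq_le (by norm_num)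
  have s0 : 0 < √5 := by linarith
  have e1 : (x.im : ℝ) * √5 = va x - vb x := by
    unfold va vb
    ring
  have e2 : (x.re : ℝ) * √5 = (1 + √5) / 2 * vb x - (1 - √5) / 2 * va x := by
    unfold va vb
    ring
  rw [abs_le] at h1 h2
  constructor
  · have h3 : |(x.re : ℝ)| * √5 ≤ M * √5 := by
      have h4 : |(x.re : ℝ) * √5| ≤ M * √5 := by
        rw [e2, abs_le]
        constructor <;> nlinarith [h1.1, h1.2, h2.1, h2.2]
      rwa [abs_mul, abs_of_pos s0] at h4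
    exact le_of_mul_le_mul_right h3 s0
  · have h3 : |(x.im : ℝ)| * √5 ≤ M * √5 := by
      have h4 : |(x.im : ℝ) * √5| ≤ M * √5 := by
        rw [e1, abs_le]
        constructor <;> nlinarith [h1.1, h1.2, h2.1, h2.2]
      rwa [abs_mul, abs_of_pos s0] at h4
    exact le_of_mul_le_mul_right h3 s0

theorem VNR_size (u v : ℤ) (X : ℝ) (hu : |(u : ℝ)| ≤ X) (hv : |(v : ℝ)| ≤ X) :
    |va ⟨u, v⟩| ≤ 11 / 4 * X ∧ |vb ⟨u, v⟩| ≤ 11 / 4 * X := by
  have hX : 0 ≤ X := (abs_nonneg _).trans hu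
  have s2 : (2 : ℝ) ≤ √5 := Real.le_sqrt_of_sq_le (by norm_num)
  have s3 : √5 ≤ (5 / 2 : ℝ) := by
    rw [Real.sqrt_le_left (by norm_num)]
    norm_num
  rw [abs_le] at hu hv
  unfold va vb
  simp only
  constructor <;> rw [abs_le] <;> constructor <;> nlinarith [hu.1, hu.2, hv.1, hv.2]

open Classical in
theorem VNR (hVGN : VGN_stmt) (hVDC : VDC_stmt) (hVDQ : VDQ_stmt) (hVSZ : VSZ_stmt)
    (h1 : WVA_stmt) (h2 : WEU_stmt) (hN4 : N4_stmt) : VNR_stmt := by
  have : IsDomain OO := h2.1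
  obtain ⟨C0, hC0, hS⟩ := hVSZ
  refine ⟨234256 + (288 * C0) ^ 3, by nlinarith [pow_nonneg (by linarith : (0 : ℝ) ≤ 288 * C0) 3], ?_⟩
  intro Q B c h δ r G R k g a hQ hB hc hh hG hg hga hgb hKG hkg hRQ hδ hδh hδk hδr hR
  have hQ0 : (0 : ℝ) < Q := by exact_mod_cast (by omega : 0 < Q)
  have hB0 : (0 : ℝ) < B := by exact_mod_cast (by omega : 0 < B)
  have hB1 : (1 : ℝ) ≤ B := by exact_mod_cast hB
  have hh0 : (0 : ℝ) < h := by exact_mod_cast (by omega : 0 < h)
  have hc0 : (0 : ℝ) < c := by exact_mod_cast (by omega : 0 < c)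
  have hC00 : 0 < C0 := by linarith
  have hG0 : 0 < G := by linarith
  set s : ℝ := (Q : ℝ) ^ (3 / 2 : ℝ) with hs
  have hs0 : 0 < s := Real.rpow_pos_of_pos hQ0 _
  have hss : (Q : ℝ) ^ 3 = s * s := by
    rw [hs, ← Real.rpow_add hQ0]
    norm_num
  have hR0 : 0 ≤ R := le_trans (by positivity) hR
  obtain ⟨⟨v0, -, -, hv0⟩, -⟩ := hN4 1 δ r le_rfl hδ
  have hlam : 0 ≤ lamb 1 δ r := by
    rw [← hv0]
    exact nrm_nonneg _ _
  have hk0 : k ≠ 0 := by
    rintro rfl
    have := hKG.lo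
    simp at this
  have hq1 : 1 ≤ k.norm.natAbs := by
    have := hKG.lo
    omega
  have hH : h * c ≠ 0 := by
    have : 0 < h * c := Nat.mul_pos (by omega) (by omega)
    omega
  -- existence of the relations
  have hex : ∀ p : ℤ × ℤ × ℤ × ℤ, NP (k.norm.natAbs ^ 3) B h a.1 a.2.1 a.2.2 p →
      ∃ t : OO × OO × OO, VNR_Rel k g (h * c) p t.1 t.2.1 t.2.2 := by
    intro p hp
    have hp1 := hp.P1
    have hp2 := hp.P2
    rw [Nat.cast_pow] at hp1 hp2
    obtain ⟨d1, d2⟩ := hVDQ k g c h a.1 a.2.1 a.2.2 p.2.2.1 p.2.2.2 p.1 p.2.1 hKG.co hKG.n10 hkg hRQ hp1 hp2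
    obtain ⟨e, w, z, f1, f2, f3, f4⟩ := hVDC k g ⟨p.1, p.2.1⟩ (ph * p.2.2.1 - p.2.2.2) ((h : ℤ) * c) hk0 hKG.co hkg d1 d2
    have hcast : (((h : ℤ) * (c : ℤ) : ℤ) : OO) = ((h * c : ℕ) : OO) := by
      push_cast
      ring
    rw [hcast] at f1 f2 f4
    exact ⟨(e, w, z), f1, f2, f3, f4⟩
  set L : ℤ × ℤ × ℤ × ℤ → V4 := fun p =>
    if hp : ∃ t : OO × OO × OO, VNR_Rel k g (h * c) p t.1 t.2.1 t.2.2 then
      VNR_crd (g * hp.choose.1) hp.choose.2.2 else 0 with hL
  have hLp : ∀ p : ℤ × ℤ × ℤ × ℤ, NP (k.norm.natAbs ^ 3) B h a.1 a.2.1 a.2.2 p →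
      ∃ e w z : OO, VNR_Rel k g (h * c) p e w z ∧ L p = VNR_crd (g * e) z := by
    intro p hp
    have h3 := hex p hp
    refine ⟨h3.choose.1, h3.choose.2.1, h3.choose.2.2, h3.choose_spec, ?_⟩
    rw [hL]
    simp only [dif_pos h3]
  have hcop : IsCoprime ((δ : ℕ) : OO) ((k.im : ℤ) : OO) := by
    have h3 : Nat.Coprime δ k.im.natAbs := Nat.Coprime.coprime_mul_left_right hδk
    have h4 : IsCoprime (δ : ℤ) k.im := by
      rw [Int.isCoprime_iff_gcd_eq_one, Int.gcd_eq_natAbs]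
      simpa using h3
    have h5 := h4.map (Int.castRingHom OO)
    simpa using h5
  have hmain := hVGN (k.norm.natAbs ^ 3) B h δ r a.1 a.2.1 a.2.2 (48 * C0 * R) L (Nat.one_le_pow _ _ hq1) hB hh hδ
    (by positivity) (by
      intro p hp
      obtain ⟨e, w, z, hrel, hLe⟩ := hLp p hp
      rw [hLe]
      constructor
      · unfold InG
        change ((δ : ℕ) : OO) ∣ FF ⟨(r : ℤ), 1⟩ (g * e) z
        refine VNR_FF hδr hcop ?_
        rw [← hrel.r4]
        have h3 : ((δ : ℕ) : OO) ∣ ((h : ℕ) : OO) := Nat.cast_dvd_cast hδh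
        have h4 : (10 : OO) * ((h * c : ℕ) : OO) * g * (⟨p.1, p.2.1⟩ : OO) =
            (h : OO) * (10 * c * g * (⟨p.1, p.2.1⟩ : OO)) := by
          push_cast
          ring
        rw [h4]
        exact h3.mul_right _
      · -- sizes
        have hq2 : ((k.norm.natAbs : ℕ) : ℝ) ≤ 2 * Q := by exact_mod_cast hKG.hi
        have hq0 : (0 : ℝ) ≤ ((k.norm.natAbs : ℕ) : ℝ) := Nat.cast_nonneg _
        have hq3 : ((k.norm.natAbs : ℕ) : ℝ) ^ 3 ≤ 8 * (s * s) := by
          rw [← hss]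
          calc ((k.norm.natAbs : ℕ) : ℝ) ^ 3 ≤ (2 * Q) ^ 3 := pow_le_pow_left₀ hq0 hq2 3
            _ = 8 * (Q : ℝ) ^ 3 := by ring
        have hu : |(p.1 : ℝ)| ≤ 4 * B := by exact_mod_cast hp.u
        have hv : |(p.2.1 : ℝ)| ≤ 4 * B := by exact_mod_cast hp.v
        have hP : ∀ n : ℤ, |n| * B ≤ ((k.norm.natAbs ^ 3 : ℕ) : ℤ) → |(n : ℝ)| ≤ 8 * (s * s) / B := by
          intro n hn
          rw [le_div_iff₀ hB0]
          have h3 : (((|n| * (B : ℤ) : ℤ)) : ℝ) ≤ (((k.norm.natAbs ^ 3 : ℕ) : ℤ) : ℝ) :=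
            Int.cast_le.2 hn
          rw [Int.cast_mul, Int.cast_abs, Int.cast_natCast, Int.cast_natCast, Nat.cast_pow] at h3
          exact h3.trans hq3
        have hP1 := hP _ hp.s1
        have hP2 := hP _ hp.s2
        obtain ⟨zU1, zU2⟩ := VNR_size p.1 p.2.1 (4 * B) hu hv
        have hPe : (ph * (p.2.2.1 : OO) - (p.2.2.2 : OO)) = (⟨-p.2.2.2, p.2.2.1⟩ : OO) := by
          ext <;> simp [ph]
        obtain ⟨zP1, zP2⟩ := VNR_size (-p.2.2.2) p.2.2.1 (8 * (s * s) / B)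
          (by push_cast; rw [abs_neg]; exact hP2) hP1
        have hsz := hS Q (h * c) G (11 * B) (24 * (s * s) / B) k g ⟨p.1, p.2.1⟩
          (ph * p.2.2.1 - p.2.2.2) e w z hKG hQ hG (by positivity) (by positivity) hga hgb
          (by linarith) (by linarith)
          (by
            rw [hPe]
            refine zP1.trans ?_
            have : 0 ≤ s * s / B := by positivity
            have e3 : 11 / 4 * (8 * (s * s) / B) = 22 * (s * s / B) := by ring
            have e4 : 24 * (s * s) / B = 24 * (s * s / B) := by ring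
            rw [e3, e4]
            linarith)
          (by
            rw [hPe]
            refine zP2.trans ?_
            have : 0 ≤ s * s / B := by positivity
            have e3 : 11 / 4 * (8 * (s * s) / B) = 22 * (s * s / B) := by ring
            have e4 : 24 * (s * s) / B = 24 * (s * s / B) := by ring
            rw [e3, e4]
            linarith)
          hrel.r1 hrel.r2 hrel.r3
        rw [← hs] at hsz
        set S : ℝ := (((h * c : ℕ) : ℝ) * (11 * B) + 24 * (s * s) / B) / s with hSdef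
        obtain ⟨z1, z2, z3, z4⟩ := hsz
        have hGS : G * S ≤ 24 * R := by
          have e3 : G * S = 11 * ((h : ℝ) * c * G * B / s) + 24 * (G * s / B) := by
            rw [hSdef]
            push_cast
            field_simp
          rw [e3]
          have : 0 ≤ (h : ℝ) * c * G * B / s := by positivity
          linarith
        have hS0 : 0 ≤ S := by rw [hSdef]; positivity
        have hge : ∀ x y : ℝ, |x| ≤ 2 * G → |y| ≤ C0 * S → |x * y| ≤ 48 * C0 * R := by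
          intro x y hx hy
          rw [abs_mul]
          calc |x| * |y| ≤ (2 * G) * (C0 * S) := mul_le_mul hx hy (abs_nonneg _) (by positivity)
            _ = 2 * C0 * (G * S) := by ring
            _ ≤ 2 * C0 * (24 * R) := mul_le_mul_of_nonneg_left hGS (by positivity)
            _ = 48 * C0 * R := by ring
        have hze : ∀ y : ℝ, |y| ≤ C0 * (G * S) → |y| ≤ 48 * C0 * R := by
          intro y hy
          refine hy.trans ?_
          calc C0 * (G * S) ≤ C0 * (24 * R) := mul_le_mul_of_nonneg_left hGS hC00.le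
            _ ≤ 48 * C0 * R := by nlinarith [mul_nonneg hC00.le hR0]
        obtain ⟨k1, k2⟩ := VNR_coord (g * e) (48 * C0 * R) (by rw [h1.1]; exact hge _ _ hga z1)
          (by rw [h1.2.1]; exact hge _ _ hgb z2)
        obtain ⟨k3, k4⟩ := VNR_coord z (48 * C0 * R) (hze _ z3) (hze _ z4)
        rw [nrm_le_iff]
        exact ⟨k1, k2, k3, k4⟩)
    (by
      intro n p hp
      choose e w z hrel hLe using fun i => hLp (p i) (hp i)
      have hsum : VNR_Rel k g (h * c) (∑ i, n i • p i) (∑ i, (n i : OO) * e i) (∑ i, (n i : OO) * w i)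
          (∑ i, (n i : OO) * z i) := by
        rw [Fin.sum_univ_four, Fin.sum_univ_four, Fin.sum_univ_four, Fin.sum_univ_four]
        exact VNR_add (VNR_add (VNR_add (VNR_smul _ (hrel 0)) (VNR_smul _ (hrel 1))) (VNR_smul _ (hrel 2)))
          (VNR_smul _ (hrel 3))
      have hLs : ∑ i, n i • L (p i) = VNR_crd (g * ∑ i, (n i : OO) * e i) (∑ i, (n i : OO) * z i) := by
        rw [Fin.sum_univ_four, Fin.sum_univ_four, Fin.sum_univ_four, hLe 0, hLe 1, hLe 2, hLe 3,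
          VNR_crd_smul, VNR_crd_smul, VNR_crd_smul, VNR_crd_smul, VNR_crd_add, VNR_crd_add, VNR_crd_add]
        congr 1
        ring
      rw [hLs, VNR_crd_zero]
      exact VNR_zero_iff h2 hsum hk0 hg hH)
  have hnear : (nearG B h k a) = nearPts B B (h * a.1 / ((k.norm.natAbs ^ 3 : ℕ) : ℝ))
      (h * a.2.1 / ((k.norm.natAbs ^ 3 : ℕ) : ℝ)) (h * a.2.2 / ((k.norm.natAbs ^ 3 : ℕ) : ℝ)) := by
    unfold nearG
    push_cast
    rfl
  rw [hnear]
  have hX : 0 ≤ R / lamb 1 δ r := div_nonneg hR0 hlam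
  have hX3 : 1 ≤ (1 + R / lamb 1 δ r) ^ 3 := one_le_pow₀ (by linarith)
  have hA : (0 : ℝ) ≤ (288 * C0) ^ 3 := by positivity
  rcases hmain with h3 | h3
  · refine h3.trans ?_
    nlinarith
  · refine h3.trans ?_
    have h4 : 1 + 6 * (48 * C0 * R) / lamb 1 δ r ≤ (288 * C0) * (1 + R / lamb 1 δ r) := by
      have e5 : 6 * (48 * C0 * R) / lamb 1 δ r = 288 * C0 * (R / lamb 1 δ r) := by ring
      rw [e5]
      nlinarith
    have h5 : 0 ≤ 1 + 6 * (48 * C0 * R) / lamb 1 δ r := by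
      have : 0 ≤ 6 * (48 * C0 * R) / lamb 1 δ r := div_nonneg (by positivity) hlam
      linarith
    calc (1 + 6 * (48 * C0 * R) / lamb 1 δ r) ^ 3 ≤ ((288 * C0) * (1 + R / lamb 1 δ r)) ^ 3 :=
          pow_le_pow_left₀ h5 h4 3
      _ = (288 * C0) ^ 3 * (1 + R / lamb 1 δ r) ^ 3 := by ring
      _ ≤ _ := by nlinarith

end Pool.Agent.RL
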